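import Pool.Agent.H43.G.R_seed8.Y957.VK.Stm

/-!
Project VK: the second application of Hoelder's inequality to the bilinear Weyl sums.
-/

set_option autoImplicit false

namespace Pool.Agent.Y93.VK

open Finset Pool.Agent.Y957.VK
open scoped ComplexConjugate

/-- exponentials -/
noncomputable def ee (t : ℝ) : ℂ := Complex.exp (2 * Real.pi * Complex.I * (t : ℂ))

lemma ee_zero : ee 0 = 1 := by
  unfold ee
  rw [Complex.ofReal_zero, mul_zero, Complex.exp_zero]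

lemma ee_add (a b : ℝ) : ee (a + b) = ee a * ee b := by
  unfold ee
  rw [← Complex.exp_add, Complex.ofReal_add, mul_add]

lemma ee_eq (t : ℝ) : ee t = Complex.exp (Complex.I * ((2 * Real.pi * t : ℝ) : ℂ)) := by
  unfold ee
  congr 1
  push_cast
  ring

lemma norm_ee (t : ℝ) : ‖ee t‖ = 1 := by
  rw [ee_eq, Complex.norm_exp_I_mul_ofReal]

lemma ee_neg (t : ℝ) : ee (-t) = conj (ee t) := by
  unfold ee
  rw [← Complex.exp_conj, map_mul, map_mul, map_mul, Complex.conj_I, Complex.conj_ofReal,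
    Complex.conj_ofReal, show conj (2 : ℂ) = 2 from Complex.conj_ofNat 2]
  congr 1
  push_cast
  ring

lemma ee_int (n : ℤ) : ee n = 1 := by
  unfold ee
  rw [Complex.exp_eq_one_iff]
  exact ⟨n, by push_cast; ring⟩

lemma ee_sum {ι : Type*} (s : Finset ι) (f : ι → ℝ) : ee (∑ i ∈ s, f i) = ∏ i ∈ s, ee (f i) := by
  classical
  induction s using Finset.induction_on with
  | empty => rw [Finset.sum_empty, Finset.prod_empty, ee_zero]
  | insert i s hi ih => rw [Finset.sum_insert hi, Finset.prod_insert hi, ee_add, ih]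

lemma ee_nat (t : ℝ) (n : ℕ) : ee (t * n) = ee t ^ n := by
  induction n with
  | zero => rw [Nat.cast_zero, mul_zero, ee_zero, pow_zero]
  | succ n ih => rw [Nat.cast_succ, mul_add, mul_one, ee_add, ih, pow_succ]

lemma ee_dz (t : ℝ) : 4 * dz t ≤ ‖ee t - 1‖ := by
  have h1 : ee t = ee (t - round t) := by
    have h2 := ee_add (t - round t) (round t)
    rw [ee_int, mul_one, sub_add_cancel] at h2
    exact h2
  have h3 := abs_sub_round t
  unfold dz
  rw [h1]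
  generalize t - round t = x at h3
  rw [ee_eq, Complex.norm_exp_I_mul_ofReal_sub_one, Real.norm_eq_abs, abs_mul, abs_two,
    show 2 * Real.pi * x / 2 = Real.pi * x by ring]
  have h4 : |Real.sin (Real.pi * x)| = Real.sin (Real.pi * |x|) := by
    have hpi := Real.pi_pos
    rcases le_or_gt 0 x with h | h
    · rw [abs_of_nonneg h] at h3 ⊢
      rw [abs_of_nonneg]
      exact Real.sin_nonneg_of_nonneg_of_le_pi (by positivity) (by nlinarith)
    · rw [abs_of_neg h] at h3 ⊢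
      rw [mul_neg, Real.sin_neg, abs_of_nonpos]
      have h5 := Real.sin_nonneg_of_nonneg_of_le_pi (x := Real.pi * (-x)) (by nlinarith)
        (by nlinarith)
      rw [mul_neg, Real.sin_neg] at h5
      linarith
  rw [h4]
  have h5 := Real.mul_le_sin (x := Real.pi * |x|) (by positivity) (by
    have hpi := Real.pi_pos
    nlinarith)
  have h6 : 2 / Real.pi * (Real.pi * |x|) = 2 * |x| := by
    have hpi := Real.pi_pos.ne'
    field_simp
  rw [h6] at h5
  linarith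

lemma card_box (V : ℕ) : ((Finset.Icc (-(V : ℤ)) (V : ℤ)).card : ℝ) = 2 * V + 1 := by
  have h1 : (Finset.Icc (-(V : ℤ)) (V : ℤ)).card = 2 * V + 1 := by
    rw [Int.card_Icc]
    omega
  rw [h1]
  push_cast
  ring

lemma sum_Icc_shift {M : Type*} [AddCommMonoid M] (V : ℕ) (f : ℤ → M) :
    ∑ k ∈ Finset.Icc (-(V : ℤ)) (V : ℤ), f k = ∑ k ∈ Finset.range (2 * V + 1), f ((k : ℤ) - V) := by
  symm
  refine Finset.sum_bij (fun k _ => (k : ℤ) - V) ?_ ?_ ?_ ?_
  · intro k hk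
    rw [Finset.mem_range] at hk
    rw [Finset.mem_Icc]
    omega
  · intro a _ b _ h
    omega
  · intro k hk
    rw [Finset.mem_Icc] at hk
    refine ⟨(k + V).toNat, ?_, ?_⟩
    · rw [Finset.mem_range]
      omega
    · omega
  · intro k _
    rfl

/-- geometric sums -/
lemma geo (V : ℕ) (t : ℝ) : ‖∑ k ∈ Finset.Icc (-(V : ℤ)) (V : ℤ), ee (t * k)‖ ≤ mn V t := by
  have h1 : ‖∑ k ∈ Finset.Icc (-(V : ℤ)) (V : ℤ), ee (t * k)‖ ≤ 2 * V + 1 := by
    refine (norm_sum_le _ _).trans ?_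
    rw [Finset.sum_congr rfl fun (k : ℤ) _ => norm_ee (t * k), Finset.sum_const, nsmul_eq_mul, mul_one,
      card_box]
  unfold mn
  split_ifs with h
  · exact h1
  refine le_min h1 ?_
  have hd : 0 < dz t := lt_of_le_of_ne (abs_nonneg _) (Ne.symm h)
  have hz := ee_dz t
  have hz1 : ee t ≠ 1 := by
    intro h2
    rw [h2, sub_self, norm_zero] at hz
    linarith
  have hz2 : 0 < ‖ee t - 1‖ := norm_pos_iff.2 (sub_ne_zero.2 hz1)
  rw [sum_Icc_shift]
  have h2 : ∀ k : ℕ, ee (t * ((k : ℤ) - V : ℤ)) = ee (-(t * V)) * ee t ^ k := by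
    intro k
    rw [← ee_nat, ← ee_add]
    congr 1
    push_cast
    ring
  rw [Finset.sum_congr rfl fun k _ => h2 k, ← Finset.mul_sum, norm_mul, norm_ee, one_mul,
    geom_sum_eq hz1, norm_div]
  have h3 : ‖ee t ^ (2 * V + 1) - 1‖ ≤ 2 := by
    refine (norm_sub_le _ _).trans ?_
    rw [norm_pow, norm_ee, one_pow, norm_one]
    norm_num
  calc ‖ee t ^ (2 * V + 1) - 1‖ / ‖ee t - 1‖ ≤ 2 / (4 * dz t) :=
        div_le_div₀ (by norm_num) h3 (by linarith) hz
    _ = 1 / (2 * dz t) := by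
        field_simp
        norm_num

/-- the differences of the power sums -/
def DD {s : ℕ} (r : ℕ) (z : (Fin s → ℕ) × (Fin s → ℕ)) : Fin r → ℤ := fun j =>
  ∑ i, (z.1 i : ℤ) ^ ((j : ℕ) + 1) - ∑ i, (z.2 i : ℤ) ^ ((j : ℕ) + 1)

lemma nv_eq (s r M : ℕ) (v : Fin r → ℤ) :
    nv s r M v = ((Tu s M ×ˢ Tu s M).filter fun z => DD r z = v).card := by
  unfold nv
  congr 1
  refine Finset.filter_congr fun z _ => ?_
  rw [funext_iff]
  rfl

lemma J_eq (s r M : ℕ) : J s r M = ((Tu s M ×ˢ Tu s M).filter fun z => DD r z = 0).card := by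
  unfold J
  congr 1
  refine Finset.filter_congr fun z _ => ?_
  rw [funext_iff]
  constructor
  · intro h j
    have h1 := h (j + 1) (Finset.mem_Icc.2 ⟨by omega, by omega⟩)
    show ∑ i, (z.1 i : ℤ) ^ ((j : ℕ) + 1) - ∑ i, (z.2 i : ℤ) ^ ((j : ℕ) + 1) = 0
    rw [sub_eq_zero]
    exact_mod_cast h1
  · intro h j hj
    rw [Finset.mem_Icc] at hj
    have h1 : ∑ i, (z.1 i : ℤ) ^ (j - 1 + 1) - ∑ i, (z.2 i : ℤ) ^ (j - 1 + 1) = 0 :=
      h ⟨j - 1, by omega⟩
    rw [sub_eq_zero, Nat.sub_add_cancel hj.1] at h1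
    exact_mod_cast h1

lemma Tu_sum {s M : ℕ} {x : Fin s → ℕ} (hx : x ∈ Tu s M) (j : ℕ) :
    0 ≤ ∑ i, (x i : ℤ) ^ j ∧ ∑ i, (x i : ℤ) ^ j ≤ ((s * M ^ j : ℕ) : ℤ) := by
  have hx1 : ∀ i, x i ≤ M := fun i => (Finset.mem_Icc.1 (Fintype.mem_piFinset.1 hx i)).2
  refine ⟨Finset.sum_nonneg fun i _ => by positivity, ?_⟩
  have h1 : ∑ i, x i ^ j ≤ s * M ^ j := by
    calc ∑ i, x i ^ j ≤ ∑ _i : Fin s, M ^ j :=
          Finset.sum_le_sum fun i _ => Nat.pow_le_pow_left (hx1 i) j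
      _ = s * M ^ j := by
          rw [Finset.sum_const, Finset.card_univ, Fintype.card_fin, smul_eq_mul]
  exact_mod_cast h1

lemma DD_mem (s r M : ℕ) (z : (Fin s → ℕ) × (Fin s → ℕ)) (hz : z ∈ Tu s M ×ˢ Tu s M) :
    DD r z ∈ Box s r M := by
  rw [Finset.mem_product] at hz
  unfold Box
  rw [Fintype.mem_piFinset]
  intro j
  obtain ⟨a1, a2⟩ := Tu_sum hz.1 ((j : ℕ) + 1)
  obtain ⟨b1, b2⟩ := Tu_sum hz.2 ((j : ℕ) + 1)
  rw [Finset.mem_Icc]
  unfold DD
  constructor <;> linarith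

lemma sum_nv (s r M : ℕ) : ∑ v ∈ Box s r M, (nv s r M v : ℝ) = (M : ℝ) ^ (2 * s) := by
  have h1 : (Tu s M ×ˢ Tu s M).card = ∑ v ∈ Box s r M, nv s r M v := by
    rw [Finset.card_eq_sum_card_fiberwise (f := DD r) (t := Box s r M)
      fun z hz => DD_mem s r M z hz]
    exact Finset.sum_congr rfl fun v _ => (nv_eq s r M v).symm
  have h2 : (Tu s M).card = M ^ s := by
    unfold Tu
    rw [Fintype.card_piFinset, Finset.prod_const, Nat.card_Icc, Finset.card_univ, Fintype.card_fin,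
      Nat.add_sub_cancel]
  rw [Finset.card_product, h2] at h1
  have h3 : ((∑ v ∈ Box s r M, nv s r M v : ℕ) : ℝ) = (M : ℝ) ^ (2 * s) := by
    rw [← h1]
    push_cast
    ring
  rw [← h3]
  push_cast
  rfl

/-- the most popular difference is zero -/
lemma pop {X A : Type*} [DecidableEq A] [AddCommGroup A] (T : Finset X) (P : X → A) (v : A) :
    ((T ×ˢ T).filter fun z => P z.1 - P z.2 = v).card ≤
      ((T ×ˢ T).filter fun z => P z.1 - P z.2 = 0).card := by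
  classical
  have h1 : ∀ w : A, ((T ×ˢ T).filter fun z => P z.1 - P z.2 = w).card =
      ∑ k ∈ T.image P, (T.filter fun x => P x = k + w).card * (T.filter fun x => P x = k).card := by
    intro w
    rw [Finset.card_eq_sum_card_fiberwise (f := fun z => P z.2) (t := T.image P)]
    · refine Finset.sum_congr rfl fun k _ => ?_
      rw [← Finset.card_product]
      congr 1
      ext z
      simp only [Finset.mem_filter, Finset.mem_product]
      constructor
      · rintro ⟨⟨⟨h1, h2⟩, h3⟩, h4⟩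
        refine ⟨⟨h1, ?_⟩, h2, h4⟩
        rw [← h3, ← h4]
        abel
      · rintro ⟨⟨h1, h3⟩, h2, h4⟩
        refine ⟨⟨⟨h1, h2⟩, ?_⟩, h4⟩
        rw [h3, h4]
        abel
    · intro z hz
      have hz' := Finset.mem_filter.1 (Finset.mem_coe.1 hz)
      exact Finset.mem_coe.2 (Finset.mem_image_of_mem P (Finset.mem_product.1 hz'.1).2)
  set N : A → ℕ := fun k => (T.filter fun x => P x = k).card with hN
  have h2 : ∑ k ∈ T.image P, N (k + v) ^ 2 ≤ ∑ k ∈ T.image P, N k ^ 2 := by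
    have h3 : ∑ k ∈ T.image P, N (k + v) ^ 2 =
        ∑ k ∈ (T.image P).image (fun k => k + v), N k ^ 2 := by
      rw [Finset.sum_image fun a _ b _ h => add_right_cancel h]
    have h4 : ∀ k, k ∉ T.image P → N k = 0 := by
      intro k hk
      rw [hN, Finset.card_eq_zero, Finset.filter_eq_empty_iff]
      intro x hx hxk
      exact hk (hxk ▸ Finset.mem_image_of_mem P hx)
    rw [h3]
    calc ∑ k ∈ (T.image P).image (fun k => k + v), N k ^ 2
        ≤ ∑ k ∈ (T.image P).image (fun k => k + v) ∪ T.image P, N k ^ 2 :=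
          Finset.sum_le_sum_of_subset Finset.subset_union_left
      _ = ∑ k ∈ T.image P, N k ^ 2 := by
          symm
          refine Finset.sum_subset Finset.subset_union_right fun k _ hk => ?_
          rw [h4 k hk]
          rfl
  have h5 : 2 * ∑ k ∈ T.image P, N (k + v) * N k ≤ 2 * ∑ k ∈ T.image P, N (k + 0) * N k := by
    calc 2 * ∑ k ∈ T.image P, N (k + v) * N k
        = ∑ k ∈ T.image P, 2 * (N (k + v) * N k) := Finset.mul_sum _ _ _
      _ ≤ ∑ k ∈ T.image P, (N (k + v) ^ 2 + N k ^ 2) := Finset.sum_le_sum fun k _ => by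
          have := two_mul_le_add_sq (N (k + v)) (N k)
          linarith
      _ = ∑ k ∈ T.image P, N (k + v) ^ 2 + ∑ k ∈ T.image P, N k ^ 2 := Finset.sum_add_distrib
      _ ≤ ∑ k ∈ T.image P, N k ^ 2 + ∑ k ∈ T.image P, N k ^ 2 := Nat.add_le_add_right h2 _
      _ = 2 * ∑ k ∈ T.image P, N (k + 0) * N k := by
          rw [← two_mul]
          congr 1
          refine Finset.sum_congr rfl fun k _ => ?_
          rw [add_zero, sq]
  rw [h1 v, h1 0]
  exact Nat.le_of_mul_le_mul_left h5 (by norm_num)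

lemma nv_le (s r M : ℕ) (v : Fin r → ℤ) : nv s r M v ≤ J s r M := by
  rw [nv_eq, J_eq]
  have h := pop (Tu s M) (fun (x : Fin s → ℕ) (j : Fin r) => ∑ i, (x i : ℤ) ^ ((j : ℕ) + 1)) v
  exact h

lemma sum_nv_sq (s r M : ℕ) :
    ∑ v ∈ Box s r M, (nv s r M v : ℝ) ^ 2 ≤ (M : ℝ) ^ (2 * s) * J s r M := by
  rw [← sum_nv s r M, Finset.sum_mul]
  refine Finset.sum_le_sum fun v _ => ?_
  rw [sq]
  exact mul_le_mul_of_nonneg_left (by exact_mod_cast nv_le s r M v) (by positivity)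

/-- Hoelder's inequality -/
lemma hoelder {ι : Type*} (B : Finset ι) (n z : ι → ℝ) (hn : ∀ i ∈ B, 0 ≤ n i)
    (hz : ∀ i ∈ B, 0 ≤ z i) (hW : 0 < ∑ i ∈ B, n i) (s : ℕ) (hs : 1 ≤ s) :
    (∑ i ∈ B, n i * z i) ^ (2 * s) ≤
      (∑ i ∈ B, n i) ^ (2 * s - 2) * ((∑ i ∈ B, n i ^ 2) * ∑ i ∈ B, z i ^ (2 * s)) := by
  obtain ⟨k, rfl⟩ : ∃ k, s = k + 1 := ⟨s - 1, by omega⟩
  set W := ∑ i ∈ B, n i with hWd
  have h1 : (∑ i ∈ B, n i * z i) ^ (k + 1) ≤ W ^ k * ∑ i ∈ B, n i * z i ^ (k + 1) := by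
    have h2 := Real.pow_arith_mean_le_arith_mean_pow B (fun i => n i / W) z
      (fun i hi => div_nonneg (hn i hi) hW.le)
      (by rw [← Finset.sum_div]; exact div_self hW.ne') hz (k + 1)
    have h3 : ∑ i ∈ B, n i / W * z i = (∑ i ∈ B, n i * z i) / W := by
      rw [Finset.sum_div]
      exact Finset.sum_congr rfl fun i _ => by ring
    have h4 : ∑ i ∈ B, n i / W * z i ^ (k + 1) = (∑ i ∈ B, n i * z i ^ (k + 1)) / W := by
      rw [Finset.sum_div]
      exact Finset.sum_congr rfl fun i _ => by ring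
    rw [h3, h4, div_pow, div_le_div_iff₀ (pow_pos hW _) hW] at h2
    have h5 : (∑ i ∈ B, n i * z i) ^ (k + 1) * W ≤
        (W ^ k * ∑ i ∈ B, n i * z i ^ (k + 1)) * W := by
      calc _ ≤ _ := h2
        _ = _ := by ring
    exact le_of_mul_le_mul_right h5 hW
  have h6 := Finset.sum_mul_sq_le_sq_mul_sq B n (fun i => z i ^ (k + 1))
  have h7 : ∑ i ∈ B, (z i ^ (k + 1)) ^ 2 = ∑ i ∈ B, z i ^ (2 * (k + 1)) :=
    Finset.sum_congr rfl fun i _ => by rw [← pow_mul, mul_comm]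
  rw [h7] at h6
  have h8 : 0 ≤ ∑ i ∈ B, n i * z i := Finset.sum_nonneg fun i hi => mul_nonneg (hn i hi) (hz i hi)
  calc (∑ i ∈ B, n i * z i) ^ (2 * (k + 1)) = ((∑ i ∈ B, n i * z i) ^ (k + 1)) ^ 2 := by
        rw [← pow_mul, mul_comm]
    _ ≤ (W ^ k * ∑ i ∈ B, n i * z i ^ (k + 1)) ^ 2 := pow_le_pow_left₀ (pow_nonneg h8 _) h1 2
    _ = W ^ (2 * (k + 1) - 2) * (∑ i ∈ B, n i * z i ^ (k + 1)) ^ 2 := by
        rw [mul_pow, ← pow_mul]
        congr 2
        omega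
    _ ≤ _ := mul_le_mul_of_nonneg_left h6 (pow_nonneg hW.le _)

lemma SS_eq (r M : ℕ) (α : ℕ → ℝ) (v : Fin r → ℤ) : SS r M α v =
    ∑ x ∈ Finset.Icc 1 M, ee (∑ j : Fin r, α (j + 1) * v j * (x : ℝ) ^ ((j : ℕ) + 1)) := rfl

/-- the expansion of the powers -/
lemma SS_pow (s r M : ℕ) (α : ℕ → ℝ) (v : Fin r → ℤ) :
    ((‖SS r M α v‖ ^ (2 * s) : ℝ) : ℂ) =
      ∑ u ∈ Box s r M, (nv s r M u : ℂ) * ee (∑ j : Fin r, α (j + 1) * u j * v j) := by
  have h1 : ((‖SS r M α v‖ ^ (2 * s) : ℝ) : ℂ) = (SS r M α v) ^ s * conj ((SS r M α v) ^ s) := by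
    rw [map_pow, ← mul_pow, Complex.mul_conj', pow_mul]
    push_cast
    rfl
  have h2 : (SS r M α v) ^ s = ∑ x ∈ Tu s M,
      ee (∑ i, ∑ j : Fin r, α (j + 1) * v j * (x i : ℝ) ^ ((j : ℕ) + 1)) := by
    rw [SS_eq, Finset.sum_pow']
    refine Finset.sum_congr rfl fun x _ => ?_
    rw [ee_sum]
  have h3 : ∀ z : (Fin s → ℕ) × (Fin s → ℕ),
      ee (∑ i, ∑ j : Fin r, α (j + 1) * v j * (z.1 i : ℝ) ^ ((j : ℕ) + 1)) *
        conj (ee (∑ i, ∑ j : Fin r, α (j + 1) * v j * (z.2 i : ℝ) ^ ((j : ℕ) + 1))) =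
      ee (∑ j : Fin r, α (j + 1) * (DD r z j : ℤ) * v j) := by
    intro z
    rw [← ee_neg, ← ee_add]
    congr 1
    rw [← sub_eq_add_neg, Finset.sum_comm, Finset.sum_comm (s := Finset.univ) (t := Finset.univ)
      (f := fun i (j : Fin r) => α (j + 1) * v j * (z.2 i : ℝ) ^ ((j : ℕ) + 1)),
      ← Finset.sum_sub_distrib]
    refine Finset.sum_congr rfl fun j _ => ?_
    rw [← Finset.mul_sum, ← Finset.mul_sum]
    unfold DD
    push_cast
    ring
  rw [h1, h2, map_sum, Finset.sum_mul_sum, ← Finset.sum_product',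
    Finset.sum_congr rfl fun z _ => h3 z,
    ← Finset.sum_fiberwise_of_maps_to (g := DD r) (t := Box s r M) fun z hz => DD_mem s r M z hz]
  refine Finset.sum_congr rfl fun u _ => ?_
  rw [nv_eq, ← nsmul_eq_mul, ← Finset.sum_const]
  refine Finset.sum_congr rfl fun z hz => ?_
  rw [(Finset.mem_filter.1 hz).2]

/-- the sum over the box -/
lemma box_sum (s r M : ℕ) (α : ℕ → ℝ) (u : Fin r → ℤ) :
    ‖∑ v ∈ Box s r M, ee (∑ j : Fin r, α (j + 1) * u j * v j)‖ ≤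
      ∏ j : Fin r, mn (s * M ^ ((j : ℕ) + 1)) (α (j + 1) * u j) := by
  have h1 : ∑ v ∈ Box s r M, ee (∑ j : Fin r, α (j + 1) * u j * v j) =
      ∏ j : Fin r, ∑ k ∈ Finset.Icc (-((s * M ^ ((j : ℕ) + 1) : ℕ) : ℤ))
        ((s * M ^ ((j : ℕ) + 1) : ℕ) : ℤ), ee (α (j + 1) * u j * k) := by
    rw [Finset.prod_univ_sum]
    refine Finset.sum_congr rfl fun v _ => ?_
    rw [ee_sum]
  rw [h1, norm_prod]
  exact Finset.prod_le_prod (fun j _ => norm_nonneg _) fun j _ => geo _ _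

lemma mn_nonneg (V : ℕ) (t : ℝ) : 0 ≤ mn V t := (norm_nonneg _).trans (geo V t)

/-- the sum of the powers -/
lemma sum_pow_SS (s r M : ℕ) (α : ℕ → ℝ) :
    ∑ v ∈ Box s r M, ‖SS r M α v‖ ^ (2 * s) ≤
      (J s r M : ℝ) * ∏ j ∈ Finset.Icc 1 r, WJ s M j (α j) := by
  have h0 : 0 ≤ ∑ v ∈ Box s r M, ‖SS r M α v‖ ^ (2 * s) :=
    Finset.sum_nonneg fun v _ => by positivity
  have h1 : ∑ v ∈ Box s r M, ‖SS r M α v‖ ^ (2 * s) =
      ‖∑ u ∈ Box s r M, (nv s r M u : ℂ) *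
        ∑ v ∈ Box s r M, ee (∑ j : Fin r, α (j + 1) * u j * v j)‖ := by
    have h2 : ((∑ v ∈ Box s r M, ‖SS r M α v‖ ^ (2 * s) : ℝ) : ℂ) =
        ∑ u ∈ Box s r M, (nv s r M u : ℂ) *
          ∑ v ∈ Box s r M, ee (∑ j : Fin r, α (j + 1) * u j * v j) := by
      rw [Complex.ofReal_sum, Finset.sum_congr rfl fun v _ => SS_pow s r M α v, Finset.sum_comm]
      exact Finset.sum_congr rfl fun u _ => (Finset.mul_sum _ _ _).symm
    rw [← h2, Complex.norm_real, Real.norm_of_nonneg h0]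
  rw [h1]
  refine (norm_sum_le _ _).trans ?_
  have h3 : ∀ u ∈ Box s r M, ‖(nv s r M u : ℂ) *
      ∑ v ∈ Box s r M, ee (∑ j : Fin r, α (j + 1) * u j * v j)‖ ≤
        (J s r M : ℝ) * ∏ j : Fin r, mn (s * M ^ ((j : ℕ) + 1)) (α (j + 1) * u j) := by
    intro u _
    rw [norm_mul, Complex.norm_natCast]
    exact mul_le_mul (by exact_mod_cast nv_le s r M u) (box_sum s r M α u) (norm_nonneg _)
      (Nat.cast_nonneg _)
  refine (Finset.sum_le_sum h3).trans ?_
  rw [← Finset.mul_sum]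
  refine le_of_eq ?_
  congr 1
  have h4 : ∏ j ∈ Finset.Icc 1 r, WJ s M j (α j) = ∏ j : Fin r, WJ s M (j + 1) (α (j + 1)) := by
    rw [Fin.prod_univ_eq_prod_range (fun j => WJ s M (j + 1) (α (j + 1))) r, Finset.range_eq_Ico,
      Finset.prod_Ico_add' (fun j => WJ s M j (α j)) 0 r 1]
    refine Finset.prod_congr ?_ fun _ _ => rfl
    ext j
    rw [Finset.mem_Icc, Finset.mem_Ico]
    omega
  rw [h4]
  unfold WJ
  rw [Finset.prod_univ_sum]
  rfl

/-- the second application of Hoelder's inequality -/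
theorem db : S_DB := by
  intro s r M α hs _ hM
  have hM0 : (0 : ℝ) < M := by exact_mod_cast hM
  have h1 := hoelder (Box s r M) (fun v => (nv s r M v : ℝ)) (fun v => ‖SS r M α v‖)
    (fun _ _ => Nat.cast_nonneg _) (fun _ _ => norm_nonneg _)
    (by rw [sum_nv]; positivity) s hs
  rw [sum_nv] at h1
  refine h1.trans ?_
  have h2 := sum_nv_sq s r M
  have h3 := sum_pow_SS s r M α
  have h4 : 0 ≤ ∑ v ∈ Box s r M, ‖SS r M α v‖ ^ (2 * s) :=
    Finset.sum_nonneg fun v _ => by positivity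
  calc ((M : ℝ) ^ (2 * s)) ^ (2 * s - 2) * ((∑ v ∈ Box s r M, (nv s r M v : ℝ) ^ 2) *
        ∑ v ∈ Box s r M, ‖SS r M α v‖ ^ (2 * s))
      ≤ ((M : ℝ) ^ (2 * s)) ^ (2 * s - 2) * (((M : ℝ) ^ (2 * s) * J s r M) *
        ((J s r M : ℝ) * ∏ j ∈ Finset.Icc 1 r, WJ s M j (α j))) := by
        refine mul_le_mul_of_nonneg_left ?_ (by positivity)
        exact mul_le_mul h2 h3 h4 (by positivity)
    _ = _ := by
        rw [pow_add, pow_mul (M : ℝ) (2 * s) (2 * s - 2)]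
        ring

end Pool.Agent.Y93.VK
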